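import Pool.Agent.R751.MonoC

set_option autoImplicit false

/-!
# Monochromatic convex `p`-gons: `log₂ g(p) ≤ 2 (p - 2)² log₂ (4 p)`
-/

namespace Pool.Agent.Results.MP_6c3374_co.PolynomialLogBound

open Pool.Agent.R751.Mono

/-- No three points of `P` are collinear. -/
def GeneralPosition (P : Finset (ℝ × ℝ)) : Prop :=
  ∀ a ∈ P, ∀ b ∈ P, ∀ d ∈ P, a ≠ b → b ≠ d → a ≠ d → ¬ Collinear ℝ {a, b, d}

/-- `Q` is in convex position: no point of `Q` is in the convex hull of the others. -/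
def ConvexPosition (Q : Finset (ℝ × ℝ)) : Prop :=
  ConvexIndependent ℝ (fun x : Q => (x : ℝ × ℝ))

/-- The property defining `g(p)`: for every set `P` of `n` points in the plane in general position and
every colouring of the pairs of points with two colours, some `p` points of `P` are in convex position
and all pairs among them have the same colour. -/
def Forces (p n : ℕ) : Prop :=
  ∀ P : Finset (ℝ × ℝ), P.card = n → GeneralPosition P →
    ∀ c : Sym2 (ℝ × ℝ) → Bool, ∃ Q ⊆ P, Q.card = p ∧ ConvexPosition Q ∧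
      ∃ κ : Bool, ∀ a ∈ Q, ∀ b ∈ Q, a ≠ b → c s(a, b) = κ

/-- `g(p)`: the least `n` with the property. -/
noncomputable def g (p : ℕ) : ℕ := sInf {n | Forces p n}

lemma forces_bound {p : ℕ} (hp : 3 ≤ p) : Forces p ((4 * (p - 2) - 1) ^ (2 * (p - 2) ^ 2) + 1) := by
  classical
  intro P hP hgen c
  by_contra hcon
  obtain ⟨t, hX⟩ := exists_shear P
  have hsl : ∀ u ∈ P, ∀ v ∈ P, ∀ w ∈ P, XX t u < XX t v → XX t v < XX t w →
      sl (XX t) YY u v ≠ sl (XX t) YY v w := by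
    intro u hu v hv w hw h1 h2 he
    refine hgen u hu v hv w hw ?_ ?_ ?_ (collinear_of_sl h1 h2 he)
    · rintro rfl; exact lt_irrefl _ h1
    · rintro rfl; exact lt_irrefl _ h2
    · rintro rfl; exact lt_irrefl _ (h1.trans h2)
  have hno : ∀ b κ Q, Q ⊆ P → Q.card = (p - 2) + 2 →
      ¬ MonoCup (XX t) (sgY YY b) (fun x y => c s(x, y)) κ Q := by
    rintro b κ Q hQ hcard ⟨hmono, hcup⟩
    apply hcon
    refine ⟨Q, hQ, by omega, ?_, κ, hmono⟩
    exact convexIndependent_of_cup (fun a ha d hd => hX a (hQ ha) d (hQ hd)) hcup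
  have h := card_bound (X := XX t) (Y := YY) (col := fun x y => c s(x, y))
    (fun a b => by simp only [Sym2.eq_swap]) (m := p - 2) (by omega) hX hsl hno
  omega

/-- For every `p ≥ 3` the number `g(p)` has its defining property, and
`g(p) ≤ (4p)^(2(p-2)²)`, that is `log₂ g(p) ≤ 2 (p-2)² log₂ (4p)`. -/
theorem result (p : ℕ) (hp : 3 ≤ p) :
    Forces p (g p) ∧ g p ≤ (4 * p) ^ (2 * (p - 2) ^ 2) ∧
      Real.logb 2 (g p) ≤ 2 * ((p : ℝ) - 2) ^ 2 * Real.logb 2 (4 * p) := by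
  have hne : {n | Forces p n}.Nonempty := ⟨_, forces_bound hp⟩
  have hmem : Forces p (g p) := Nat.sInf_mem hne
  have hle : g p ≤ (4 * (p - 2) - 1) ^ (2 * (p - 2) ^ 2) + 1 := Nat.sInf_le (forces_bound hp)
  have hpos : 0 < 2 * (p - 2) ^ 2 := by
    have : 0 < (p - 2) ^ 2 := pow_pos (by omega) 2
    omega
  have hlt : (4 * (p - 2) - 1) ^ (2 * (p - 2) ^ 2) < (4 * p) ^ (2 * (p - 2) ^ 2) :=
    Nat.pow_lt_pow_left (by omega) (by omega)
  have hle' : g p ≤ (4 * p) ^ (2 * (p - 2) ^ 2) := by omega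
  refine ⟨hmem, hle', ?_⟩
  have hgpos : 0 < g p := by
    rcases Nat.eq_zero_or_pos (g p) with h0 | h0
    · exfalso
      rw [h0] at hmem
      obtain ⟨Q, hQ, hcard, -⟩ := hmem ∅ Finset.card_empty
        (fun a ha => absurd ha (Finset.notMem_empty a)) (fun _ => true)
      have : Q.card ≤ 0 := by simpa using Finset.card_le_card hQ
      omega
    · exact h0
  have hcast : ((g p : ℕ) : ℝ) ≤ (4 * (p : ℝ)) ^ (2 * (p - 2) ^ 2) := by
    have : ((g p : ℕ) : ℝ) ≤ (((4 * p) ^ (2 * (p - 2) ^ 2) : ℕ) : ℝ) := by exact_mod_cast hle'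
    simpa using this
  have h1 : Real.logb 2 (g p) ≤ Real.logb 2 ((4 * (p : ℝ)) ^ (2 * (p - 2) ^ 2)) :=
    Real.logb_le_logb_of_le (by norm_num) (by exact_mod_cast hgpos) hcast
  rw [Real.logb_pow] at h1
  have h2 : ((2 * (p - 2) ^ 2 : ℕ) : ℝ) = 2 * ((p : ℝ) - 2) ^ 2 := by
    push_cast [Nat.cast_sub (show 2 ≤ p by omega)]
    ring
  rw [h2] at h1
  exact h1

end Pool.Agent.Results.MP_6c3374_co.PolynomialLogBound
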